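import Pool.Agent.Lib.MP_e3346b_ag_h58.Dual

/-!
# Cohen-Macaulay local rings of small length or small Loewy length

Let `R` be a Cohen-Macaulay local ring of type `r` with canonical module `ω`, let `(x)` be a
parameter ideal generated by a regular sequence, and let `n` be the embedding dimension of
`R / (x)`. If `β₁(ω) ≤ β₀(ω)` then

* `r * type(R / J) ≤ length ((x) : J) / (x)` for all ideals `J` containing `(x)`;
* `length (R / (x)) > r ^ 2 * (n - 1)`;
* if `m ^ lam ⊆ (x)` and `3 ≤ n` then `2 * lam > 3 * r + 1`, and if `5 ≤ n` then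
  `2 * lam > 3 * r + 2`.
-/

set_option autoImplicit false

universe u

open CategoryTheory CategoryTheory.Abelian RingTheory.Sequence

namespace Pool.Agent.Results.MP_e3346b_ag.LengthBounds

open Pool.Agent.MP_e3346b Pool.Agent.MP_e3346b_h58

/-- The first hypothesis says that `R` is Cohen-Macaulay, the second and third ones that the
finitely generated module `ω` is a canonical module of `R`; `f` is a surjection from a free module
of rank `r = β₀(ω)`, and `m` relations generate its kernel; `I` is generated by the maximal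
regular sequence `rs`, `L` is the length of `R / I` and `n` its embedding dimension. -/
theorem result :
    ∀ (R : Type u) [CommRing R] [IsLocalRing R] [IsNoetherianRing R]
      (ω : Type u) [AddCommGroup ω] [Module R ω] [Module.Finite R ω],
      (∀ i : ℕ, (i : WithBot ℕ∞) < ringKrullDim R →
        Subsingleton
          (Ext (ModuleCat.of R (IsLocalRing.ResidueField R)) (ModuleCat.of R R) i)) →
      (∀ i : ℕ, (i : WithBot ℕ∞) ≠ ringKrullDim R →
        Subsingleton
          (Ext (ModuleCat.of R (IsLocalRing.ResidueField R)) (ModuleCat.of R ω) i)) →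
      (∀ i : ℕ, (i : WithBot ℕ∞) = ringKrullDim R →
        Module.length R
          (Ext (ModuleCat.of R (IsLocalRing.ResidueField R)) (ModuleCat.of R ω) i) = 1) →
      ∀ (r : ℕ) (f : (Fin r → R) →ₗ[R] ω), Function.Surjective f →
        (∀ n : ℕ, ∀ h : (Fin n → R) →ₗ[R] ω, Function.Surjective h → r ≤ n) →
        ∀ (m : ℕ) (g : (Fin m → R) →ₗ[R] (Fin r → R)), LinearMap.range g = LinearMap.ker f →
        ∀ rs : List R, IsRegular R rs → IsRegular ω rs →
          (rs.length : WithBot ℕ∞) = ringKrullDim R →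
        ∀ I : Ideal R, I = Ideal.ofList rs →
        ∀ n lam L : ℕ, Module.length R (R ⧸ I) = L →
          Module.length R (R ⧸ (I ⊔ IsLocalRing.maximalIdeal R ^ 2)) = (n + 1 : ℕ) →
          IsLocalRing.maximalIdeal R ^ lam ≤ I →
          ((∃ J : Ideal R, I ≤ J ∧
              Module.length R (R ⧸ I) +
                r * Module.length R (R ⧸ J.colon (IsLocalRing.maximalIdeal R)) <
              r * Module.length R (R ⧸ J) + Module.length R (R ⧸ I.colon J)) ∨
            L ≤ r ^ 2 * (n - 1) ∨
            (3 ≤ n ∧ 2 * lam ≤ 3 * r + 1) ∨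
            (5 ≤ n ∧ 2 * lam ≤ 3 * r + 2)) →
          r + 1 ≤ m := by
  intro R _ _ _ ω _ _ _ _ h0 h1 r f hf hmin m g hg rs hregR hregω hrs I hI n lam L hL hn hlam hcase
  by_contra hm
  have hmr : m ≤ r := by omega
  -- pad the presentation by zero relations
  let p : (Fin r → R) →ₗ[R] (Fin m → R) := LinearMap.funLeft R R (Fin.castLE hmr)
  have hp : Function.Surjective p :=
    LinearMap.funLeft_surjective_of_injective R R _ (Fin.castLE_injective hmr)
  have hg' : LinearMap.range (g.comp p) = LinearMap.ker f := by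
    rw [LinearMap.range_comp, LinearMap.range_eq_top.mpr hp, Submodule.map_top, hg]
  obtain ⟨_, _, _, hIm, hmem, hfaith, hend, hlen⟩ :=
    reduction_explicit R ω h0 h1 r f hf hmin (g.comp p) hg' rs hregR hregω hrs I hI
  set F := baseF I f with hFdef
  set G := baseG I (g.comp p) with hGdef
  have hF : Function.Surjective F := baseF_surjective I hf
  have hG : LinearMap.range G = LinearMap.ker F := baseG_range I hf hg'
  have hfin : Module.Finite (R ⧸ I) (ω ⧸ (I • ⊤ : Submodule R ω)) :=
    Module.Finite.of_surjective F hF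
  -- the maximal ideal
  have hmaxmem : ∀ x : R, Ideal.Quotient.mk I x ∈ IsLocalRing.maximalIdeal (R ⧸ I) ↔
      x ∈ IsLocalRing.maximalIdeal R := by
    intro x
    have hloc : IsLocalHom (Ideal.Quotient.mk I) :=
      IsLocalHom.of_surjective (Ideal.Quotient.mk I) Ideal.Quotient.mk_surjective
    rw [IsLocalRing.mem_maximalIdeal, IsLocalRing.mem_maximalIdeal, mem_nonunits_iff,
      mem_nonunits_iff, isUnit_map_iff]
  have hmax : IsLocalRing.maximalIdeal (R ⧸ I) =
      (IsLocalRing.maximalIdeal R).map (Ideal.Quotient.mk I) := by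
    ext y
    obtain ⟨x, rfl⟩ := Ideal.Quotient.mk_surjective y
    rw [hmaxmem, mem_map_mk I _ hIm]
  rcases hcase with ⟨J, hIJ, hJ⟩ | hcase
  · -- the criterion
    set J' := J.map (Ideal.Quotient.mk I) with hJ'
    set K := J.colon (IsLocalRing.maximalIdeal R : Set R) with hK
    set Q := I.colon (J : Set R) with hQ
    have hJK : J ≤ K := by
      intro x hx
      rw [hK, Submodule.mem_colon]
      intro y _
      exact J.mul_mem_right y hx
    have hIQ : I ≤ Q := by
      intro x hx
      rw [hQ, Submodule.mem_colon]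
      intro y _
      exact I.mul_mem_right y hx
    set K' := K.map (Ideal.Quotient.mk I) with hK'
    set Q' := Q.map (Ideal.Quotient.mk I) with hQ'
    have hmJ := fun x => mem_map_mk I J hIJ x
    have hmK := fun x => mem_map_mk I K (hIJ.trans hJK) x
    have hmQ := fun x => mem_map_mk I Q hIQ x
    have hGm : ∀ j i, G (Pi.single j 1) i ∈ IsLocalRing.maximalIdeal (R ⧸ I) := by
      intro j i
      refine hmem _ ?_ i
      rw [← hG]
      exact ⟨_, rfl⟩
    have hA := step_A F hF G hG J' K' (by
      intro v hv i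
      rw [eq_sum_single v, map_sum, Finset.sum_apply]
      refine Ideal.sum_mem _ fun l _ => ?_
      rw [map_smul, Pi.smul_apply, smul_eq_mul]
      obtain ⟨a, ha⟩ := Ideal.Quotient.mk_surjective (v l)
      obtain ⟨b, hb⟩ := Ideal.Quotient.mk_surjective (G (Pi.single l 1) i)
      have h2 := hv l
      have h3 := hGm l i
      rw [← ha, hmK, hK, Submodule.mem_colon] at h2
      rw [← hb, hmaxmem] at h3
      rw [← ha, ← hb, ← map_mul, hmJ]
      exact h2 b h3)
    have hD := dual_len hfaith hend hlen J' Q' (by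
      intro c
      obtain ⟨c, rfl⟩ := Ideal.Quotient.mk_surjective c
      rw [hmQ, hQ, Submodule.mem_colon]
      constructor
      · intro h2 x hx
        obtain ⟨x, rfl⟩ := Ideal.Quotient.mk_surjective x
        rw [hmJ] at hx
        rw [← map_mul, Ideal.Quotient.eq_zero_iff_mem]
        exact h2 x hx
      · intro h2 x hx
        have h3 := h2 _ ((hmJ x).mpr hx)
        rw [← map_mul, Ideal.Quotient.eq_zero_iff_mem] at h3
        exact h3)
    rw [len_quot I J J' hmJ, len_quot I K K' hmK, len_quot I Q Q' hmQ, len_self I] at hJ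
    have hfinQ : Module.length (R ⧸ I) ((R ⧸ I) ⧸ Q') ≠ ⊤ := Module.length_ne_top
    refine absurd hJ (not_lt.mpr ?_)
    calc r * Module.length (R ⧸ I) ((R ⧸ I) ⧸ J') + Module.length (R ⧸ I) ((R ⧸ I) ⧸ Q')
        ≤ (r * Module.length (R ⧸ I) ((R ⧸ I) ⧸ K') +
            Module.length (R ⧸ I) (_ ⧸ (J' • ⊤ : Submodule (R ⧸ I) _))) +
            Module.length (R ⧸ I) ((R ⧸ I) ⧸ Q') := add_le_add hA le_rfl
      _ = r * Module.length (R ⧸ I) ((R ⧸ I) ⧸ K') +
            (Module.length (R ⧸ I) (_ ⧸ (J' • ⊤ : Submodule (R ⧸ I) _)) +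
            Module.length (R ⧸ I) ((R ⧸ I) ⧸ Q')) := add_assoc _ _ _
      _ ≤ r * Module.length (R ⧸ I) ((R ⧸ I) ⧸ K') + Module.length (R ⧸ I) (R ⧸ I) :=
          add_le_add le_rfl hD
      _ = _ := add_comm _ _
  · -- the numerical conditions
    have hL' : Module.length (R ⧸ I) (R ⧸ I) = L := by rw [← len_self, hL]
    have hn' : Module.length (R ⧸ I)
        ((R ⧸ I) ⧸ (IsLocalRing.maximalIdeal (R ⧸ I)) ^ 2) = (n + 1 : ℕ) := by
      rw [← hn]
      refine (len_quot I _ _ fun x => ?_).symm
      rw [hmax, ← Ideal.map_pow]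
      have h2 : (IsLocalRing.maximalIdeal R ^ 2).map (Ideal.Quotient.mk I) =
          (I ⊔ IsLocalRing.maximalIdeal R ^ 2).map (Ideal.Quotient.mk I) := by
        rw [Ideal.map_sup, Ideal.map_quotient_self, bot_sup_eq]
      rw [h2, mem_map_mk I _ le_sup_left]
    obtain ⟨s, a, σ, hineq, ha2, hs⟩ := exists_ineq F hF G hG hmem hfaith hlen L n hL' hn'
    have hslam : s + 1 ≤ lam := by
      apply hs
      rw [hmax, ← Ideal.map_pow, eq_bot_iff]
      refine (Ideal.map_mono hlam).trans ?_
      rw [Ideal.map_quotient_self]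
    exact hineq.false ha2 hslam hcase

end Pool.Agent.Results.MP_e3346b_ag.LengthBounds
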