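import Pool.Agent.Lib.MP_e3346b_ag_h37.EndM
import Pool.Agent.Lib.MP_e3346b_ag_h37.Colength
import Pool.Agent.Lib.MP_e3346b_ag.Artin

/-!
# The trace ideal of the canonical module and homomorphisms of the maximal ideal

Let `R` be a Cohen-Macaulay local ring with canonical module `ω`, `r = β₀(ω) ≥ 2` and
`m = β₁(ω)`. Let `I` be generated by a maximal regular sequence.

* If some linear map `ω → R` takes a value outside the square of the maximal ideal, then
  `m ≥ 2 r - 2` and `m ≥ r + 1`.
* If `W / I ω` is a submodule of `ω / I ω` generated by `p` elements and `ω / W` is generated by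
  `q` elements whose relations have coefficients in a proper ideal `f`, and `ω / W` is killed by
  some `x` in the maximal ideal with `x ∉ I + m f`, then `m - r ≥ q - p`.
* If `x` is in the maximal ideal and `L` is an ideal containing `I + x R` all of whose elements
  are, modulo `I`, values at `x` of linear maps `m / I → R / I`, then
  `m - r ≥ length (L / (I + x R))`.
* If `R / I` is the quotient of an Artinian Gorenstein local ring by an ideal of length at most
  the embedding dimension of `R / I`, then `m ≥ 2 r - 2` and `m ≥ r + 1`.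
-/

set_option autoImplicit false

universe u

open CategoryTheory CategoryTheory.Abelian RingTheory.Sequence IsLocalRing

namespace Pool.Agent.Results.MP_e3346b_ag.TraceAndEnd

open Pool.Agent.MP_e3346b Pool.Agent.MP_e3346b_h58 Pool.Agent.MP_e3346b_h37

section Aux

variable {R : Type u} [CommRing R] [IsLocalRing R] {I : Ideal R}

lemma mk_mem_maximalIdeal [IsLocalRing (R ⧸ I)] (x : R) :
    Ideal.Quotient.mk I x ∈ maximalIdeal (R ⧸ I) ↔ x ∈ maximalIdeal R := by
  have hloc : IsLocalHom (Ideal.Quotient.mk I) :=
    IsLocalHom.of_surjective (Ideal.Quotient.mk I) Ideal.Quotient.mk_surjective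
  rw [IsLocalRing.mem_maximalIdeal, IsLocalRing.mem_maximalIdeal, mem_nonunits_iff,
    mem_nonunits_iff, isUnit_map_iff]

lemma map_maximalIdeal [IsLocalRing (R ⧸ I)] :
    (maximalIdeal R).map (Ideal.Quotient.mk I) = maximalIdeal (R ⧸ I) := by
  apply le_antisymm
  · rw [Ideal.map_le_iff_le_comap]
    intro x hx
    exact (mk_mem_maximalIdeal x).mpr hx
  · intro y hy
    obtain ⟨x, rfl⟩ := Ideal.Quotient.mk_surjective y
    exact Ideal.mem_map_of_mem _ ((mk_mem_maximalIdeal x).mp hy)

omit [IsLocalRing R] in
lemma mk_mem_map (A : Ideal R) (x : R) :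
    Ideal.Quotient.mk I x ∈ A.map (Ideal.Quotient.mk I) ↔ x ∈ I ⊔ A := by
  have h : A.map (Ideal.Quotient.mk I) = (I ⊔ A).map (Ideal.Quotient.mk I) := by
    rw [Ideal.map_sup, Ideal.map_quotient_self, bot_sup_eq]
  rw [h, mem_map_mk I _ le_sup_left]

/-- A linear map from the canonical module with a value outside the square of the maximal
ideal forces `2 r ≤ m + 2` and `r + 1 ≤ m`. -/
theorem both_ineq {S : Type u} [CommRing S] [IsLocalRing S] [IsArtinianRing S] {E : Type u}
    [AddCommGroup E] [Module S E] [Nontrivial E] {r m : ℕ} (hr : 2 ≤ r)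
    (F : (Fin r → S) →ₗ[S] E) (hF : Function.Surjective F)
    (hmem : ∀ v ∈ LinearMap.ker F, ∀ i, v i ∈ maximalIdeal S)
    (H : (Fin m → S) →ₗ[S] (Fin r → S)) (hH : LinearMap.range H = LinearMap.ker F)
    (hfaith : ∀ c : S, (∀ e : E, c • e = 0) → c = 0)
    (hend : ∀ φ : E →ₗ[S] E, ∃ c : S, ∀ e, φ e = c • e)
    (hlen : ∀ (X : Type u) [AddCommGroup X] [Module S X], Module.Finite S X →
      Module.length S (X →ₗ[S] E) = Module.length S X)
    (ψ : E →ₗ[S] S) (w : E) (hψ : ψ w ∉ maximalIdeal S * maximalIdeal S) :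
    2 * r ≤ m + 2 ∧ r + 1 ≤ m := by
  have h2 := trace_ineq hr F hF hmem H hH hfaith hend hlen ψ w hψ
  refine ⟨h2, ?_⟩
  rcases Nat.lt_or_ge 2 r with hr3 | hr3
  · omega
  · -- type two
    have hr2 : r = 2 := le_antisymm hr3 hr
    subst hr2
    by_contra hm
    have hm2 : m ≤ 2 := by omega
    let p : (Fin 2 → S) →ₗ[S] (Fin m → S) := LinearMap.funLeft S S (Fin.castLE hm2)
    have hp : Function.Surjective p :=
      LinearMap.funLeft_surjective_of_injective _ _ _ (Fin.castLE_injective hm2)
    have hH' : LinearMap.range (H.comp p) = LinearMap.ker F := by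
      rw [LinearMap.range_comp, LinearMap.range_eq_top.mpr hp, Submodule.map_top, hH]
    refine no_two_by_two_presentation F hF (H.comp p) hH' ?_ hfaith hend
    intro v hv i
    have hnil : IsNilpotent (maximalIdeal S) :=
      (isArtinianRing_iff_isNilpotent_maximalIdeal S).mp inferInstance
    obtain ⟨k, hk⟩ := hnil
    refine ⟨k, ?_⟩
    have h3 := Ideal.pow_mem_pow (hmem v hv i) k
    rw [hk] at h3
    exact h3

end Aux

/-- The first hypothesis says that `R` is Cohen-Macaulay, the second and third ones that the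
finitely generated module `ω` is a canonical module of `R`; `f` is a surjection from a free module
of rank `r = β₀(ω)`, and `m` relations generate its kernel. -/
theorem result :
    ∀ (R : Type u) [CommRing R] [IsLocalRing R] [IsNoetherianRing R]
      (ω : Type u) [AddCommGroup ω] [Module R ω] [Module.Finite R ω],
      (∀ i : ℕ, (i : WithBot ℕ∞) < ringKrullDim R →
        Subsingleton
          (Ext (ModuleCat.of R (IsLocalRing.ResidueField R)) (ModuleCat.of R R) i)) →
      (∀ i : ℕ, (i : WithBot ℕ∞) ≠ ringKrullDim R →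
        Subsingleton
          (Ext (ModuleCat.of R (IsLocalRing.ResidueField R)) (ModuleCat.of R ω) i)) →
      (∀ i : ℕ, (i : WithBot ℕ∞) = ringKrullDim R →
        Module.length R
          (Ext (ModuleCat.of R (IsLocalRing.ResidueField R)) (ModuleCat.of R ω) i) = 1) →
      ∀ (r : ℕ) (f : (Fin r → R) →ₗ[R] ω), Function.Surjective f →
        (∀ n : ℕ, ∀ h : (Fin n → R) →ₗ[R] ω, Function.Surjective h → r ≤ n) → 2 ≤ r →
        ∀ (m : ℕ) (g : (Fin m → R) →ₗ[R] (Fin r → R)), LinearMap.range g = LinearMap.ker f →
          (∀ (φ : ω →ₗ[R] R) (w : ω), φ w ∉ maximalIdeal R ^ 2 → 2 * r ≤ m + 2 ∧ r + 1 ≤ m) ∧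
          (∀ rs : List R, IsRegular R rs → IsRegular ω rs →
            (rs.length : WithBot ℕ∞) = ringKrullDim R → ∀ I : Ideal R, I = Ideal.ofList rs →
            (∀ x ∈ maximalIdeal R,
              ∀ (W : Submodule R ω), (∀ e : ω, x • e ∈ W) →
              ∀ (p : ℕ) (z : Fin p → ω), W = I • ⊤ ⊔ Submodule.span R (Set.range z) →
              ∀ (q : ℕ) (y : Fin q → ω), W ⊔ Submodule.span R (Set.range y) = ⊤ →
              ∀ a ≤ maximalIdeal R, (∀ c : Fin q → R, ∑ i, c i • y i ∈ W → ∀ i, c i ∈ a) →
                x ∉ I ⊔ maximalIdeal R * a → r + q ≤ m + p) ∧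
            (∀ x : maximalIdeal R, ∀ L : Ideal R, I ⊔ Ideal.span {(x : R)} ≤ L →
              (∀ a ∈ L, ∃ h : maximalIdeal R →ₗ[R] (R ⧸ I),
                (∀ b : maximalIdeal R, (b : R) ∈ I → h b = 0) ∧ h x = Ideal.Quotient.mk I a) →
              r + Module.length R (R ⧸ (I ⊔ Ideal.span {(x : R)})) ≤
                m + Module.length R (R ⧸ L)) ∧
            (∀ (G : Type u) [CommRing G] [IsLocalRing G] [IsArtinianRing G],
              Module.Injective G G → ∀ π : G →+* R ⧸ I, Function.Surjective π →
              ∀ n : ℕ, Module.length R (R ⧸ (I ⊔ maximalIdeal R ^ 2)) = (n + 1 : ℕ) →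
                Module.length G (RingHom.ker π) ≤ n → 2 * r ≤ m + 2 ∧ r + 1 ≤ m)) := by
  classical
  intro R _ _ _ ω _ _ _ hR h0 h1 r f hf hmin hr m g hg
  refine ⟨?_, ?_⟩
  · -- the trace ideal
    intro φ w hφ
    obtain ⟨d, hd⟩ : ∃ d : ℕ, ringKrullDim R = (d : WithBot ℕ∞) := by
      have hb : ringKrullDim R ≠ ⊥ := ringKrullDim_ne_bot
      have ht : ringKrullDim R ≠ ⊤ := ringKrullDim_ne_top
      obtain ⟨x, hx⟩ := WithBot.ne_bot_iff_exists.mp hb
      rw [← hx] at ht
      have hx' : x ≠ ⊤ := fun h => ht (by rw [h]; rfl)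
      obtain ⟨m, hm⟩ := ENat.ne_top_iff_exists.mp hx'
      exact ⟨m, by rw [← hx, ← hm]; rfl⟩
    have hω : Nontrivial ω := by
      by_contra hns
      rw [not_nontrivial_iff_subsingleton] at hns
      have h2 := hmin 0 0 (fun y => ⟨0, Subsingleton.elim _ _⟩)
      omega
    obtain ⟨rs, hrs, hmem, hregR, hregω⟩ := exists_regular_sq R R ω d
      (fun i hi => hR i (by rw [hd]; exact_mod_cast hi))
      (fun i hi => h0 i (by rw [hd]; exact_mod_cast hi.ne))
    obtain ⟨I, hI⟩ : ∃ I : Ideal R, I = Ideal.ofList rs := ⟨_, rfl⟩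
    have hI2 : I ≤ maximalIdeal R ^ 2 := by
      rw [hI, Ideal.ofList, Ideal.span_le]
      exact fun r hr => hmem r hr
    obtain ⟨_, _, _, hIm, hmemS, hfaith, hend, hlen⟩ :=
      reduction_rect R ω h0 h1 r f hf hmin rs hregR hregω (by rw [hrs, hd]) I hI
    -- the induced homomorphism
    let ψ : (ω ⧸ (I • ⊤ : Submodule R ω)) →ₗ[R] (R ⧸ I) :=
      Submodule.liftQ _ ((Submodule.mkQ I).comp φ) (by
        refine Submodule.smul_le.mpr fun a ha e _ => ?_
        rw [LinearMap.mem_ker, LinearMap.comp_apply, Submodule.mkQ_apply,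
          Submodule.Quotient.mk_eq_zero, map_smul]
        exact I.mul_mem_right _ ha)
    let ψ' : (ω ⧸ (I • ⊤ : Submodule R ω)) →ₗ[R ⧸ I] (R ⧸ I) :=
      ψ.extendScalarsOfSurjective Ideal.Quotient.mk_surjective
    have hψ : ψ' (mkE I w) ∉ maximalIdeal (R ⧸ I) * maximalIdeal (R ⧸ I) := by
      change Ideal.Quotient.mk I (φ w) ∉ _
      rw [← map_maximalIdeal, ← Ideal.map_mul, mk_mem_map, ← pow_two]
      intro h
      rw [sup_eq_right.mpr hI2] at h
      exact hφ h
    have hnt : Nontrivial (ω ⧸ (I • ⊤ : Submodule R ω)) := by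
      rw [← not_subsingleton_iff_nontrivial]
      intro hsub
      exact hψ (by
        rw [Subsingleton.elim (mkE I w) 0, map_zero]
        exact zero_mem _)
    exact both_ineq hr (baseF I f) (baseF_surjective I hf) hmemS (baseH I g)
      (baseH_range I hf hg) hfaith hend hlen ψ' (mkE I w) hψ
  · intro rs hregR hregω hrs I hI
    obtain ⟨_, _, _, hIm, hmemS, hfaith, hend, hlen⟩ :=
      reduction_rect R ω h0 h1 r f hf hmin rs hregR hregω hrs I hI
    refine ⟨?_, ?_, ?_⟩
    · -- quotients of `ω`
      intro x hx W hxW p z hW q y hy a ha hca hxa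
      have hIW : (I • ⊤ : Submodule R ω) ≤ W := hW ▸ le_sup_left
      let W' : Submodule (R ⧸ I) (ω ⧸ (I • ⊤ : Submodule R ω)) :=
        Submodule.span (R ⧸ I) (Set.range fun j => mkE I (z j))
      have hspan : ∀ (n : ℕ) (t : Fin n → ω) (e : ω), e ∈ Submodule.span R (Set.range t) →
          mkE I e ∈ Submodule.span (R ⧸ I) (Set.range fun j => mkE I (t j)) := by
        intro n t e he
        rw [Submodule.mem_span_range_iff_exists_fun] at he ⊢
        obtain ⟨c, rfl⟩ := he
        refine ⟨fun j => Ideal.Quotient.mk I (c j), ?_⟩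
        change _ = (Submodule.mkQ (I • ⊤ : Submodule R ω)) _
        rw [map_sum]
        refine Finset.sum_congr rfl fun j _ => ?_
        rw [map_smul]
        rfl
      have hmkI : ∀ e ∈ (I • ⊤ : Submodule R ω), mkE I e = 0 := fun e he =>
        (Submodule.Quotient.mk_eq_zero _).mpr he
      have hmkadd : ∀ e e' : ω, mkE I (e + e') = mkE I e + mkE I e' := fun e e' => rfl
      have hW'1 : ∀ e ∈ W, mkE I e ∈ W' := by
        intro e he
        rw [hW] at he
        obtain ⟨e1, he1, e2, he2, rfl⟩ := Submodule.mem_sup.mp he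
        rw [hmkadd, hmkI e1 he1, zero_add]
        exact hspan p z e2 he2
      have hzW : ∀ j, z j ∈ W := fun j => by
        rw [hW]
        exact (le_sup_right : Submodule.span R (Set.range z) ≤ _)
          (Submodule.subset_span ⟨j, rfl⟩)
      have hW'2 : ∀ e, mkE I e ∈ W' → e ∈ W := by
        intro e he
        rw [Submodule.mem_span_range_iff_exists_fun] at he
        obtain ⟨c, hc⟩ := he
        choose c' hc' using fun j => Ideal.Quotient.mk_surjective (c j)
        have h2 : mkE I (∑ j, c' j • z j) = mkE I e := by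
          rw [← hc]
          change (Submodule.mkQ (I • ⊤ : Submodule R ω)) _ = _
          rw [map_sum]
          refine Finset.sum_congr rfl fun j _ => ?_
          rw [map_smul, ← hc' j]
          rfl
        have h3 : (∑ j, c' j • z j) - e ∈ (I • ⊤ : Submodule R ω) :=
          (Submodule.Quotient.eq _).mp h2
        have h4 : ∑ j, c' j • z j ∈ W := sum_mem fun j _ => W.smul_mem _ (hzW j)
        have h5 := W.sub_mem h4 (hIW h3)
        rwa [sub_sub_cancel] at h5
      refine core_ineq hr (baseF I f) (baseF_surjective I hf) hmemS (baseH I g)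
        (baseH_range I hf hg) hfaith hend hlen (fun j => mkE I (z j)) W' rfl
        (Ideal.Quotient.mk I x) ((mk_mem_maximalIdeal x).mpr hx) ?_ (fun j => mkE I (y j)) ?_
        (a.map (Ideal.Quotient.mk I)) ?_ ?_ ?_
      · intro e
        obtain ⟨e, rfl⟩ := Submodule.mkQ_surjective _ e
        exact hW'1 _ (hxW e)
      · rw [eq_top_iff]
        intro e _
        obtain ⟨e, rfl⟩ := Submodule.mkQ_surjective _ e
        have he : e ∈ W ⊔ Submodule.span R (Set.range y) := by
          rw [hy]
          trivial
        obtain ⟨e1, he1, e2, he2, rfl⟩ := Submodule.mem_sup.mp he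
        rw [map_add, add_comm]
        exact Submodule.add_mem_sup (hspan q y e2 he2) (hW'1 e1 he1)
      · rw [← map_maximalIdeal]
        exact Ideal.map_mono ha
      · intro c hc i
        choose c' hc' using fun j => Ideal.Quotient.mk_surjective (c j)
        have h2 : ∑ j, c' j • y j ∈ W := by
          apply hW'2
          have h3 : mkE I (∑ j, c' j • y j) = ∑ j, c j • mkE I (y j) := by
            change (Submodule.mkQ (I • ⊤ : Submodule R ω)) _ = _
            rw [map_sum]
            refine Finset.sum_congr rfl fun j _ => ?_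
            rw [map_smul, ← hc' j]
            rfl
          rw [h3]
          exact hc
        rw [← hc' i]
        exact Ideal.mem_map_of_mem _ (hca c' h2 i)
      · rw [← map_maximalIdeal, ← Ideal.map_mul, mk_mem_map]
        exact hxa
    · -- homomorphisms on the maximal ideal
      intro x L hIL hL
      have hIL' : I ≤ L := le_sup_left.trans hIL
      have hxL : (x : R) ∈ L := hIL ((le_sup_right : Ideal.span {(x : R)} ≤ _)
        (Ideal.mem_span_singleton_self _))
      have hxS : Ideal.Quotient.mk I (x : R) ∈ maximalIdeal (R ⧸ I) :=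
        (mk_mem_maximalIdeal _).mpr x.2
      have h2 := end_ineq hr (baseF I f) (baseF_surjective I hf) hmemS (baseH I g)
        (baseH_range I hf hg) hfaith hend hlen (Ideal.Quotient.mk I (x : R)) hxS
        (L.map (Ideal.Quotient.mk I)) (Ideal.mem_map_of_mem _ hxL) (by
          intro a ha
          obtain ⟨a, rfl⟩ := Ideal.Quotient.mk_surjective a
          rw [mem_map_mk I L hIL'] at ha
          obtain ⟨h, hI0, hxa⟩ := hL a ha
          -- the induced map
          let π : maximalIdeal R →ₗ[R] maximalIdeal (R ⧸ I) :=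
            { toFun := fun b => ⟨Ideal.Quotient.mk I (b : R), (mk_mem_maximalIdeal _).mpr b.2⟩
              map_add' := fun b c => rfl
              map_smul' := fun c b => rfl }
          have hπ : Function.Surjective π := by
            rintro ⟨b, hb⟩
            obtain ⟨b, rfl⟩ := Ideal.Quotient.mk_surjective b
            exact ⟨⟨b, (mk_mem_maximalIdeal b).mp hb⟩, rfl⟩
          have hker : LinearMap.ker π ≤ LinearMap.ker h := by
            intro b hb
            rw [LinearMap.mem_ker]
            refine hI0 b ?_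
            rw [← Ideal.Quotient.eq_zero_iff_mem]
            exact congrArg Subtype.val (LinearMap.mem_ker.mp hb)
          let h' : maximalIdeal (R ⧸ I) →ₗ[R] (R ⧸ I) :=
            ((LinearMap.ker π).liftQ h hker).comp
              (π.quotKerEquivOfSurjective hπ).symm.toLinearMap
          have hh' : ∀ b, h' (π b) = h b := by
            intro b
            change ((LinearMap.ker π).liftQ h hker)
              ((π.quotKerEquivOfSurjective hπ).symm (π b)) = h b
            have h3 : (π.quotKerEquivOfSurjective hπ).symm (π b) = Submodule.Quotient.mk b := by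
              rw [LinearEquiv.symm_apply_eq]
              rfl
            rw [h3, ← Submodule.mkQ_apply, Submodule.mkQ_apply, Submodule.liftQ_apply]
          refine ⟨h'.extendScalarsOfSurjective Ideal.Quotient.mk_surjective, ?_⟩
          change h' (π x) = _
          rw [hh', hxa])
      have e1 : Module.length R (R ⧸ (I ⊔ Ideal.span {(x : R)})) =
          Module.length (R ⧸ I) ((R ⧸ I) ⧸ Ideal.span {Ideal.Quotient.mk I (x : R)}) := by
        refine len_quot I _ _ fun y => ?_
        rw [← Set.image_singleton, ← Ideal.map_span, mk_mem_map]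
      have e2 : Module.length R (R ⧸ L) =
          Module.length (R ⧸ I) ((R ⧸ I) ⧸ L.map (Ideal.Quotient.mk I)) :=
        len_quot I _ _ fun y => mem_map_mk I L hIL' y
      rw [e1, e2]
      exact h2
    · -- small Gorenstein colength
      intro G _ _ _ hG π hπ n hn hcol
      have hn' : Module.length (R ⧸ I)
          ((R ⧸ I) ⧸ (maximalIdeal (R ⧸ I) * maximalIdeal (R ⧸ I))) = (n + 1 : ℕ) := by
        rw [← hn]
        refine (len_quot I _ _ fun y => ?_).symm
        rw [← map_maximalIdeal, ← Ideal.map_mul, mk_mem_map, ← pow_two]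
      obtain ⟨ψ, w, hψ⟩ := exists_hom_of_colength hlen G hG π hπ n hn' hcol
      have hnt : Nontrivial (ω ⧸ (I • ⊤ : Submodule R ω)) := by
        rw [← not_subsingleton_iff_nontrivial]
        intro hsub
        exact hψ (by
          rw [Subsingleton.elim w 0, map_zero]
          exact zero_mem _)
      exact both_ineq hr (baseF I f) (baseF_surjective I hf) hmemS (baseH I g)
        (baseH_range I hf hg) hfaith hend hlen ψ w hψ

end Pool.Agent.Results.MP_e3346b_ag.TraceAndEnd
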