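import Pool.Agent.Lib.MP_e3346b_ag.Reduction
import Pool.Agent.Lib.MP_e3346b_ag.Artin

/-!
# Cohen-Macaulay local rings of type two

Let `R` be a Cohen-Macaulay local ring with canonical module `ω`. If `β₀(ω) = 2` then
`β₁(ω) ≥ 3`. So the question whether `β₁(ω) ≤ β₀(ω)` forces `R` to be Gorenstein has a positive
answer for rings of type two.
-/

universe u

open CategoryTheory CategoryTheory.Abelian

namespace Pool.Agent.Results.MP_e3346b_ag.TypeTwo

open Pool.Agent.MP_e3346b

/-- The canonical module of a Cohen-Macaulay local ring of type two needs at least three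
relations. The first hypothesis says that `R` is Cohen-Macaulay, the second and third ones that
the finitely generated module `ω` is a canonical module of `R`; `f` is a surjection from a free
module of rank `β₀(ω) = 2`, and `m` relations generate its kernel. -/
theorem result :
    ∀ (R : Type u) [CommRing R] [IsLocalRing R] [IsNoetherianRing R]
      (ω : Type u) [AddCommGroup ω] [Module R ω] [Module.Finite R ω],
      (∀ i : ℕ, (i : WithBot ℕ∞) < ringKrullDim R →
        Subsingleton
          (Ext (ModuleCat.of R (IsLocalRing.ResidueField R)) (ModuleCat.of R R) i)) →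
      (∀ i : ℕ, (i : WithBot ℕ∞) ≠ ringKrullDim R →
        Subsingleton
          (Ext (ModuleCat.of R (IsLocalRing.ResidueField R)) (ModuleCat.of R ω) i)) →
      (∀ i : ℕ, (i : WithBot ℕ∞) = ringKrullDim R →
        Module.length R
          (Ext (ModuleCat.of R (IsLocalRing.ResidueField R)) (ModuleCat.of R ω) i) = 1) →
      ∀ f : (Fin 2 → R) →ₗ[R] ω, Function.Surjective f →
        (∀ n : ℕ, ∀ h : (Fin n → R) →ₗ[R] ω, Function.Surjective h → 2 ≤ n) →
        ∀ (m : ℕ) (g : (Fin m → R) →ₗ[R] (Fin 2 → R)),
          LinearMap.range g = LinearMap.ker f → 3 ≤ m := by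
  intro R _ _ _ ω _ _ _ hR h0 h1 f hf hmin m g hg
  by_contra hm
  have hm2 : m ≤ 2 := by omega
  -- pad the presentation by zero relations
  let p : (Fin 2 → R) →ₗ[R] (Fin m → R) := LinearMap.funLeft R R (Fin.castLE hm2)
  have hp : Function.Surjective p :=
    LinearMap.funLeft_surjective_of_injective R R _ (Fin.castLE_injective hm2)
  have hg' : LinearMap.range (g.comp p) = LinearMap.ker f := by
    rw [LinearMap.range_comp, LinearMap.range_eq_top.mpr hp, Submodule.map_top, hg]
  obtain ⟨S, _, _, _, E, _, _, _, F, G, hF, hG, hmem, hfaith, hend⟩ :=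
    exists_artinian_reduction R ω hR h0 h1 2 f hf hmin (g.comp p) hg'
  refine no_two_by_two_presentation F hF G hG ?_ hfaith hend
  intro v hv i
  have hnil : IsNilpotent (IsLocalRing.maximalIdeal S) :=
    (isArtinianRing_iff_isNilpotent_maximalIdeal S).mp inferInstance
  obtain ⟨k, hk⟩ := hnil
  refine ⟨k, ?_⟩
  have h2 := Ideal.pow_mem_pow (hmem v hv i) k
  rw [hk] at h2
  exact h2

end Pool.Agent.Results.MP_e3346b_ag.TypeTwo
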